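import Pool.Agent.Lib.MP_b2e238_gt.Z.Fin
import Pool.Agent.Lib.MP_b2e238_gt.U.Main
import Pool.Agent.Lib.MP_b2e238_gt.E.Main

/-! The double branched covers of the roll-spun Montesinos knots `K(2,3,|6s+1|)` are `S⁴`. -/

open Pool.Agent.Lib.MP_b2e238_gt

namespace Pool.Agent.Results.MP_b2e238_gt.RollSpun

theorem result (s : ℤ) : (∃ F, Roll (6 * s + 1).natAbs F) ∧ ∀ F, Roll (6 * s + 1).natAbs F →
    ∀ (V : Type) [NormedAddCommGroup V] [NormedSpace ℝ V] [FiniteDimensional ℝ V] (X : Set V),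
      (∃ π, Br ℂ X (Sph ℂ) F π) ↔ Diffeo X (Sph ℂ) := by
  refine ⟨exists_roll s, ?_⟩
  rintro _ ⟨p, ν', ν, g, β, ρ, f, hp, conj, hν', hν, lift, pole, cg, g0, gν, hβ, β0, β1, ρ1, ρ2, hf,
    rfl⟩ V _ _ _ X
  obtain ⟨π₀, h⟩ := bridge hp hν' hν lift pole hβ β0 β1 ρ1 ρ2 hf
    (surg_T0 s hp conj hν' hν lift cg g0 gν)
  refine ⟨fun ⟨π, k⟩ => ?_, fun ⟨Φ, Ψ, a, b, c, d, e, e'⟩ => ⟨_, h.dif ⟨b, a, d, c, e', e⟩⟩⟩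
  obtain ⟨Φ, Ψ, d⟩ := br_unique k h
  exact ⟨Φ, Ψ, d.cF, d.cG, d.mF, d.mG, d.gf, d.fg⟩

end Pool.Agent.Results.MP_b2e238_gt.RollSpun
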